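import Mathlib
import Pool.Agent.R594.Lp.Powers

/-!
# MP_f50f0f_gt: the `G_δ` half of perfect normality, for every Tychonoff space

`C_p(X)` is `↥{f : X → ℝ | Continuous f}` with the subspace topology from the product `X → ℝ`,
and `L_p(X)` is the set of finite combinations of point evaluations with the subspace topology
from the product `C(X, ℝ) → ℝ`, exactly as in the frozen statement `S14225`.
-/

set_option autoImplicit false

namespace Pool.Agent.Results.MP_f50f0f_gt.GeneralHalf

open TopologicalSpace

/-- Let `X` be any Tychonoff space such that every closed subspace of `C_p(X)` is separable. Then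
every closed subset of `L_p(X)` is a `G_δ`-set, and every finite power of `X` is perfectly normal
and has only countable discrete subspaces. -/
theorem result :
    ∀ (X : Type) [TopologicalSpace X] [T35Space X],
      (∀ S : Set ↥{f : X → ℝ | Continuous f}, IsClosed S → SeparableSpace ↥S) →
      (∀ s : Set ↥(Set.range
            (fun a : X →₀ ℝ => fun f : C(X, ℝ) => a.sum (fun x r => r * f x))),
          IsClosed s → IsGδ s) ∧
      (∀ n : ℕ, NormalSpace (Fin n → X) ∧ ∀ s : Set (Fin n → X), IsClosed s → IsGδ s) ∧
      (∀ n : ℕ, ∀ s : Set (Fin n → X), DiscreteTopology ↥s → s.Countable) := by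
  intro X _ _ h
  refine ⟨fun s hs => Pool.Agent.R594.Lp.gdelta_general h hs,
    fun n => Pool.Agent.R594.Lp.powers_perfNormal h n, fun n s hs => ?_⟩
  have H : ∀ a : s, ∃ O : Set (Fin n → X), IsOpen O ∧ a.1 ∈ O ∧ ∀ b : s, a ≠ b → b.1 ∉ O := by
    intro a
    have h1 : IsOpen ({a} : Set s) := isOpen_discrete _
    obtain ⟨O, hO, hOa⟩ := isOpen_induced_iff.1 h1
    refine ⟨O, hO, ?_, fun b hab hb => ?_⟩
    · have : a ∈ Subtype.val ⁻¹' O := by rw [hOa]; rfl
      exact this
    · have : b ∈ Subtype.val ⁻¹' O := hb
      rw [hOa] at this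
      exact hab (Set.mem_singleton_iff.1 this).symm
  choose O hO haO hOb using H
  have := Pool.Agent.R594.Lp.powers_spread h n (fun a : s => a.1) O hO haO hOb
  exact Set.countable_coe_iff.1 this

end Pool.Agent.Results.MP_f50f0f_gt.GeneralHalf
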