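import Mathlib
import Pool.Agent.R594.Lp.MA

/-!
# MP_f50f0f_gt: a positive answer for every Tychonoff space under Martin's axiom

`C_p(X)` is `↥{f : X → ℝ | Continuous f}` with the subspace topology from the product `X → ℝ`,
and `L_p(X)` is the set of finite combinations of point evaluations with the subspace topology
from the product `C(X, ℝ) → ℝ`, exactly as in the frozen statement `S14225`.
`Pool.Agent.R594.Lp.MartinAxiomAleph1` is Martin's axiom for `ℵ₁` dense sets.
-/

set_option autoImplicit false

namespace Pool.Agent.Results.MP_f50f0f_gt.UnderMartin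

open TopologicalSpace

/-- Assume Martin's axiom for `ℵ₁` dense sets. Let `X` be any Tychonoff space such that every closed
subspace of `C_p(X)` is separable. Then `L_p(X)` is perfectly normal, and every subspace of every
finite power of `X` is Lindelöf. -/
theorem result :
    Pool.Agent.R594.Lp.MartinAxiomAleph1 →
    ∀ (X : Type) [TopologicalSpace X] [T35Space X],
      (∀ S : Set ↥{f : X → ℝ | Continuous f}, IsClosed S → SeparableSpace ↥S) →
      (NormalSpace ↥(Set.range
          (fun a : X →₀ ℝ => fun f : C(X, ℝ) => a.sum (fun x r => r * f x))) ∧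
        ∀ s : Set ↥(Set.range
            (fun a : X →₀ ℝ => fun f : C(X, ℝ) => a.sum (fun x r => r * f x))),
          IsClosed s → IsGδ s) ∧
      (∀ n : ℕ, ∀ s : Set (Fin n → X), IsLindelof s) := by
  intro hMA X _ _ h
  exact ⟨Pool.Agent.R594.Lp.ma_main hMA h,
    fun n s => (Pool.Agent.R594.Lp.hlin_pow hMA h n).lindelof s⟩

end Pool.Agent.Results.MP_f50f0f_gt.UnderMartin
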