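import Mathlib
import Pool.Agent.R594.Lp.Normal

/-!
# Q1 of MP_f50f0f_gt for zero-dimensional spaces

`C_p(X)` is `↥{f : X → ℝ | Continuous f}` with the subspace topology from the product `X → ℝ`,
and `L_p(X)` is the set of finite combinations of point evaluations with the subspace topology
from the product `C(X, ℝ) → ℝ`, exactly as in the frozen statement `S14225`.
-/

set_option autoImplicit false

namespace Pool.Agent.Results.MP_f50f0f_gt.ZeroDimensional

open TopologicalSpace

/-- Let `X` be a Tychonoff space which has a base of clopen sets. If every closed subspace of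
`C_p(X)` is separable, then every closed subspace of every finite power of `C_p(X)` is separable,
and `L_p(X)` is perfectly normal. -/
theorem result :
    ∀ (X : Type) [TopologicalSpace X] [T35Space X],
      IsTopologicalBasis {s : Set X | IsClopen s} →
      (∀ S : Set ↥{f : X → ℝ | Continuous f}, IsClosed S → SeparableSpace ↥S) →
      (∀ k : ℕ, ∀ S : Set (Fin k → ↥{f : X → ℝ | Continuous f}), IsClosed S →
        SeparableSpace ↥S) ∧
      (NormalSpace ↥(Set.range
          (fun a : X →₀ ℝ => fun f : C(X, ℝ) => a.sum (fun x r => r * f x))) ∧
        ∀ s : Set ↥(Set.range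
            (fun a : X →₀ ℝ => fun f : C(X, ℝ) => a.sum (fun x r => r * f x))),
          IsClosed s → IsGδ s) := by
  intro X _ _ hb h
  have hz := Pool.Agent.R594.Lp.sz_of_clopen_base hb h
  have hp := fun k => Pool.Agent.R594.Lp.clSep_pow hz h k
  exact ⟨hp, Pool.Agent.R594.Lp.perfNormal_of_pow hp⟩

end Pool.Agent.Results.MP_f50f0f_gt.ZeroDimensional
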